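import Pool.Agent.K3h19.RV.Sqrt
import Pool.Agent.R482.ST.Star

/-!
# A prime between `√N` and `4 √N` plus a number with three or four prime factors, for ALL even numbers in long windows
# near powers, orbits and other sequences

Rivera's conjecture: every even `N > 4` is `p + q` with primes `p`, `q` and `√N < p < 4 √N`. Let `f_n`, `n = 0, 1, 2, …`,
be positive functions on `(a, ∞)`, `a ≥ 0`, such that `f_n(t) / t` is nondecreasing, and such that the sequence `f_n(t)` has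
exponent of convergence at most `τ` for each `t > a`: for instance `f_n(t) = t ^ (v_n)` for exponents `v_n ≥ 1` (`τ = 0`),
the orbits `f_n(t) = g (g (⋯ g (t)))` of any map `g` with `g(t) > t` and `g(t) / t` nondecreasing (`τ = 0`), and
`f_n(t) = v_n t`. Let `r ≥ 2`, let `Λ_r = r + 1 - log (4 / (1 + 3 ^ (-r))) / log 3` and
`s = max (0, 2 / Λ_r - 1 / 2)`; so `s < 0.591`, `0.222`, `0.034` for `r = 2, 3, 4`. For `θ < 1` and for all `α > a` outside a
set of Hausdorff dimension at most `(s + τ) / (1 - θ)` there is `δ > 0` such that for each `c` and all but finitely many `n`,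
ALL even `N` with `|N - f_n(α)| ≤ c f_n(α) ^ θ` have at least `δ 𝔖(N) √N / (log N) ^ 2` primes `p` with `√N < p < 4 √N`
such that `N - p` has at most `r` prime factors, all of them at least `N ^ (1 / 16)`.

So for almost all `α > 1` (`τ = 0`) the windows of length `α ^ (0.778 n)` are admissible for three, and those of length
`α ^ (0.966 n)` for four prime factors; in the starting result `StarshapedRivera` the exponent is `1 / 2` and `r ≤ 3`.
-/

set_option autoImplicit false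

open Finset

namespace Pool.Agent.K3h2.NS.NearStarshapedValues

/-- the variable part of the singular series of the Goldbach problem -/
noncomputable def sing (N : ℕ) : ℝ :=
  ∏ p ∈ N.primeFactors.erase 2, (((p : ℝ) - 1) / ((p : ℝ) - 2))

open Classical in
/-- The number of the primes `p < N` with `√N < p < 4 √N` such that `N - p` has at most `r` prime
factors (counted with multiplicity), all of them at least `w`. -/
noncomputable def inSqrt (r : ℕ) (w : ℝ) (N : ℕ) : ℕ :=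
  ((range N).filter (fun p : ℕ => p.Prime ∧ √(N : ℝ) < p ∧ (p : ℝ) < 4 * √(N : ℝ) ∧
    (N - p).primeFactorsList.length ≤ r ∧
    ∀ q : ℕ, q.Prime → q ∣ (N - p) → w ≤ q)).card

/-- the constant of Richert, `r + 1 - log (4 / (1 + 3 ^ (-r))) / log 3` -/
noncomputable def Lam (r : ℕ) : ℝ := r + 1 - Real.log (4 / (1 + (1 / 3) ^ r)) / Real.log 3

/-- the exponent of the number of exceptions, `max (0, 2 / Λ_r - 1 / 2)` -/
noncomputable def expo (r : ℕ) : ℝ := max 0 (2 / Lam r - 1 / 2)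

/-- the functions `f n` are positive on `(a, ∞)`, `a ≥ 0`, and `f n x / x` is nondecreasing there -/
def Starshaped (a : ℝ) (f : ℕ → ℝ → ℝ) : Prop :=
  0 ≤ a ∧ ∀ n : ℕ, ∀ x y : ℝ, a < x → x ≤ y → 0 < f n x ∧ f n x / x ≤ f n y / y

/-- for each `x > a` the exponent of convergence of the sequence `f n x` is at most `τ` -/
def ExpLe (a : ℝ) (f : ℕ → ℝ → ℝ) (τ : ℝ) : Prop :=
  ∀ x : ℝ, a < x → ∀ t : ℝ, τ < t → Summable (fun n : ℕ => (f n x) ^ (-t))

/-- the exceptional even numbers -/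
def Exc (r : ℕ) (δ : ℝ) : Set ℕ :=
  {N : ℕ | Even N ∧ (inSqrt r ((N : ℝ) ^ ((1 : ℝ) / 16)) N : ℝ) < δ * sing N * (√(N : ℝ) / Real.log N ^ 2)}

lemma lam_eq (r : ℕ) : Lam r = Pool.Agent.K3h19.RV.Lam r := by
  have hL0 : 0 < Real.log 3 := by linarith [Pool.Agent.K3h19.RV.log3_pos]
  unfold Lam Pool.Agent.K3h19.RV.Lam
  have h3 : (0 : ℝ) < 3 ^ r := by positivity
  have e1 : (4 : ℝ) / (1 + (1 / 3) ^ r) = 3 ^ r / ((3 ^ r + 1) / 4) := by
    rw [div_pow, one_pow]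
    field_simp
  rw [e1, Real.log_div (by positivity) (by positivity), Real.log_pow, sub_div,
    mul_div_assoc, div_self hL0.ne']
  ring

open Classical in
lemma count (r : ℕ) (hr : 2 ≤ r) (s : ℝ) (hs0 : 0 < s) (hs : 2 / Lam r - 1 / 2 < s) :
    ∃ δ : ℝ, 0 < δ ∧ ∀ ε : ℝ, 0 < ε → ∃ C : ℝ, ∀ X : ℕ, 1 ≤ X →
      (((Ioc 0 X).filter (fun t => t ∈ Exc r δ)).card : ℝ) ≤ C * (X : ℝ) ^ (s + ε) := by
  rw [lam_eq] at hs
  obtain ⟨δ, C, hδ, hC, h⟩ := Pool.Agent.K3h19.RV.few r hr s hs0 hs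
  refine ⟨δ, hδ, fun ε hε => ⟨C, fun X hX => ?_⟩⟩
  have h1 := h X hX
  have hX1 : (1 : ℝ) ≤ X := by exact_mod_cast hX
  refine le_trans ?_ (h1.trans ?_)
  · apply Nat.cast_le.2
    apply Finset.card_le_card
    intro t ht
    rw [mem_filter, mem_Ioc] at ht
    rw [mem_filter, mem_Icc]
    exact ⟨⟨ht.1.1, ht.1.2⟩, ht.2⟩
  · apply mul_le_mul_of_nonneg_left _ hC.le
    apply Real.rpow_le_rpow_of_exponent_le hX1
    linarith

theorem near (r : ℕ) (hr : 2 ≤ r) (a : ℝ) (f : ℕ → ℝ → ℝ) (τ θ : ℝ) (hf : Starshaped a f)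
    (hτ : 0 ≤ τ) (hE : ExpLe a f τ) (hθ1 : θ < 1) :
    ∃ E : Set ℝ, dimH E ≤ ENNReal.ofReal ((expo r + τ) / (1 - θ)) ∧
      ∀ α : ℝ, a < α → α ∉ E → ∃ δ : ℝ, 0 < δ ∧ ∀ c : ℝ, ∃ n₀ : ℕ, ∀ n : ℕ, n₀ ≤ n →
        ∀ N : ℕ, Even N → |(N : ℝ) - f n α| ≤ c * (f n α) ^ θ →
        δ * sing N * (√(N : ℝ) / Real.log N ^ 2) ≤ (inSqrt r ((N : ℝ) ^ ((1 : ℝ) / 16)) N : ℝ) := by
  have he0 : 0 ≤ expo r := le_max_left _ _
  have he1 : 2 / Lam r - 1 / 2 ≤ expo r := le_max_right _ _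
  have key : ∀ m : ℕ, ∃ (δ : ℝ) (E : Set ℝ), 0 < δ ∧
      dimH E ≤ ENNReal.ofReal ((expo r + 1 / ((m : ℝ) + 1) + τ) / (1 - θ)) ∧
      ∀ α : ℝ, a < α → α ∉ E → ∀ c : ℝ, ∃ n₀ : ℕ, ∀ n : ℕ, n₀ ≤ n →
        ∀ N : ℕ, Even N → |(N : ℝ) - f n α| ≤ c * (f n α) ^ θ →
        δ * sing N * (√(N : ℝ) / Real.log N ^ 2) ≤
          (inSqrt r ((N : ℝ) ^ ((1 : ℝ) / 16)) N : ℝ) := by
    intro m
    have hm : (0 : ℝ) < 1 / ((m : ℝ) + 1) := by positivity
    obtain ⟨δ, hδ, hcount⟩ := count r hr (expo r + 1 / ((m : ℝ) + 1)) (by linarith) (by linarith)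
    obtain ⟨E, h2, h3⟩ := Pool.Agent.R482.ST.win_nat (Exc r δ) hf hτ hE
      (s := expo r + 1 / ((m : ℝ) + 1)) (by linarith) hθ1 hcount
    refine ⟨δ, E, hδ, h2, fun α hα hαE c => ?_⟩
    obtain ⟨n₀, hn⟩ := h3 α hα hαE c
    refine ⟨n₀, fun n hn1 N hN hw => ?_⟩
    by_contra hcon
    push Not at hcon
    exact (hn n hn1 N hw).2 ⟨hN, hcon⟩
  choose δ E hδ hdim hgood using key
  refine ⟨⋂ m, E m, ?_, ?_⟩
  · have hlim : Filter.Tendsto (fun m : ℕ => ENNReal.ofReal ((expo r + 1 / ((m : ℝ) + 1) + τ) /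
        (1 - θ))) Filter.atTop (nhds (ENNReal.ofReal ((expo r + τ) / (1 - θ)))) := by
      apply ENNReal.tendsto_ofReal
      have h1 : Filter.Tendsto (fun m : ℕ => (1 : ℝ) / ((m : ℝ) + 1)) Filter.atTop (nhds 0) :=
        tendsto_one_div_add_atTop_nhds_zero_nat
      have h2 := ((h1.const_add (expo r)).add_const τ).div_const (1 - θ)
      rwa [add_zero] at h2
    exact ge_of_tendsto' hlim fun m => (dimH_mono (Set.iInter_subset E m)).trans (hdim m)
  · intro α hα hαE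
    rw [Set.mem_iInter] at hαE
    push Not at hαE
    obtain ⟨m, hm⟩ := hαE
    exact ⟨δ m, hδ m, fun c => hgood m α hα hm c⟩

/-- **Theorem.** (1) Let `r ≥ 2`, let the `f n` be starshaped functions on `(a, ∞)` of exponent of convergence at most
`τ ≥ 0` and let `θ < 1`. There is a set `E` of Hausdorff dimension at most `(expo r + τ) / (1 - θ)` such that for each
`α > a` outside `E` there is `δ > 0` such that for each `c` and all but finitely many `n`, ALL even `N` with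
`|N - f_n(α)| ≤ c f_n(α) ^ θ` have at least `δ 𝔖(N) √N / (log N) ^ 2` primes `p` with `√N < p < 4 √N` such that `N - p` has
at most `r` prime factors, all of them at least `N ^ (1 / 16)`. (2) `expo 2 < 0.591`, `expo 3 < 0.222`, `expo 4 < 0.034`.
(3) The functions `v_n x`, `v_n > 0`, are starshaped on `(0, ∞)`, of exponent `τ` if `v` has exponent of convergence at most
`τ`; the functions `x ^ (v_n)`, `v_n ≥ 1`, are starshaped on `(1, ∞)`, of exponent `0` if the sums of `exp (-t v_n)` converge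
for `t > 0`; and the iterates of a map `g` with `g(x) > x` for `x > a` and `g(x) / x` nondecreasing are starshaped on
`(a, ∞)`, of exponent `0`. -/
theorem result :
    (∀ r : ℕ, 2 ≤ r → ∀ (a : ℝ) (f : ℕ → ℝ → ℝ) (τ θ : ℝ), Starshaped a f → 0 ≤ τ →
      ExpLe a f τ → θ < 1 →
      ∃ E : Set ℝ, dimH E ≤ ENNReal.ofReal ((expo r + τ) / (1 - θ)) ∧
        ∀ α : ℝ, a < α → α ∉ E → ∃ δ : ℝ, 0 < δ ∧ ∀ c : ℝ, ∃ n₀ : ℕ, ∀ n : ℕ, n₀ ≤ n →
          ∀ N : ℕ, Even N → |(N : ℝ) - f n α| ≤ c * (f n α) ^ θ →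
          δ * sing N * (√(N : ℝ) / Real.log N ^ 2) ≤
            (inSqrt r ((N : ℝ) ^ ((1 : ℝ) / 16)) N : ℝ)) ∧
    (expo 2 < 591 / 1000 ∧ expo 3 < 222 / 1000 ∧ expo 4 < 34 / 1000) ∧
    (∀ (v : ℕ → ℝ) (τ : ℝ), (∀ n, 0 < v n) → (∀ t : ℝ, τ < t → Summable (fun n : ℕ => (v n) ^ (-t))) →
      Starshaped 0 (fun n x => v n * x) ∧ ExpLe 0 (fun n x => v n * x) τ) ∧
    (∀ v : ℕ → ℝ, (∀ n, 1 ≤ v n) → (∀ t : ℝ, 0 < t → Summable fun n : ℕ => Real.exp (-(t * v n))) →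
      Starshaped 1 (fun n x => x ^ (v n)) ∧ ExpLe 1 (fun n x => x ^ (v n)) 0) ∧
    (∀ (a : ℝ) (g : ℝ → ℝ), 0 ≤ a → (∀ x y : ℝ, a < x → x ≤ y → g x / x ≤ g y / y) → (∀ x : ℝ, a < x → x < g x) →
      Starshaped a (fun n x => g^[n] x) ∧ ExpLe a (fun n x => g^[n] x) 0) := by
  refine ⟨near, ⟨?_, ?_, ?_⟩, Pool.Agent.R482.ST.ex_mul, Pool.Agent.R482.ST.ex_pow,
    Pool.Agent.R482.ST.ex_orbit⟩
  · refine max_lt (by norm_num) ?_
    rw [lam_eq]
    have h := Pool.Agent.K3h19.RV.lam_two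
    have : 2 / Pool.Agent.K3h19.RV.Lam 2 ≤ 2 / (1 + 5 / 6) :=
      div_le_div_of_nonneg_left (by norm_num) (by norm_num) h
    norm_num at this ⊢
    linarith
  · refine max_lt (by norm_num) ?_
    rw [lam_eq]
    have h := Pool.Agent.K3h19.RV.lam_three
    have : 2 / Pool.Agent.K3h19.RV.Lam 3 ≤ 2 / (1 + 131 / 74) :=
      div_le_div_of_nonneg_left (by norm_num) (by norm_num) h
    norm_num at this ⊢
    linarith
  · refine max_lt (by norm_num) ?_
    rw [lam_eq]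
    have h := Pool.Agent.K3h19.RV.lam_four
    have : 2 / Pool.Agent.K3h19.RV.Lam 4 ≤ 2 / (1 + 151 / 55) :=
      div_le_div_of_nonneg_left (by norm_num) (by norm_num) h
    norm_num at this ⊢
    linarith

end Pool.Agent.K3h2.NS.NearStarshapedValues
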